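import Pool.Agent.Run7.h242.ArrowPf

open Run7.h242.Arrow

namespace Pool.Agent.Results.MP_31ab2b_pr.NeverHomogenizes

/-- For every dimension `d ≥ 1` and every `0 < ε < 1 / (2 d)` the model does not homogenize. -/
theorem result (d : ℕ) [NeZero d] (ε : ℝ) (h0 : 0 < ε) (h1 : ε < 1 / (2 * (d : ℝ))) :
    ¬ Homogenizes d ε :=
  fun h => not_selfAveraging h0 h1 h.2

end Pool.Agent.Results.MP_31ab2b_pr.NeverHomogenizes
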